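import Pool.Agent.Lib.MP_8b575b_co.Lt.Lin

/-!
# Degree inequalities, `S` of dimension `k + i`
-/

set_option autoImplicit false
set_option linter.unusedSectionVars false

namespace Pool.Agent.MP8bT

open Finset Module

variable {K V : Type} [Field K] [Fintype K] [AddCommGroup V] [Module K V] [Fintype V]

/-- The weight of `U`: if `U ∩ S` has dimension `i + j` it is `q ^ j - 1`. -/
noncomputable def nu (i : ℕ) (S U : Submodule K V) : ℚ :=
  ((F (U ⊓ S)).card : ℚ) / (Fintype.card K : ℚ) ^ i - 1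

theorem two_le_q (K : Type) [Field K] [Fintype K] : (2 : ℚ) ≤ (Fintype.card K : ℚ) := by
  exact_mod_cast Fintype.one_lt_card (α := K)

theorem card_eq_nu (i : ℕ) (S U : Submodule K V) :
    ((F (U ⊓ S)).card : ℚ) = (Fintype.card K : ℚ) ^ i * (nu i S U + 1) := by
  have hq := two_le_q K
  have : (Fintype.card K : ℚ) ^ i ≠ 0 := pow_ne_zero _ (by linarith)
  unfold nu
  field_simp
  ring

theorem nu_eq (i : ℕ) (S U : Submodule K V) (j : ℕ) (h : finrank K ↥(U ⊓ S) = i + j) :
    nu i S U = (Fintype.card K : ℚ) ^ j - 1 := by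
  have hq := two_le_q K
  have h0 : (Fintype.card K : ℚ) ^ i ≠ 0 := pow_ne_zero _ (by linarith)
  unfold nu
  rw [card_F, h, pow_add, Nat.cast_mul, Nat.cast_pow, Nat.cast_pow,
    mul_div_cancel_left₀ _ h0]

theorem le_finrank_inf (k i : ℕ) (hV : finrank K V = 2 * k) (S U : Submodule K V)
    (hS : finrank K S = k + i) (hU : finrank K U = k) : i ≤ finrank K ↥(U ⊓ S) := by
  have h1 := Submodule.finrank_sup_add_finrank_inf_eq U S
  have h2 : finrank K ↥(U ⊔ S) ≤ 2 * k := hV ▸ Submodule.finrank_le _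
  omega

theorem nu_nonneg (k i : ℕ) (hV : finrank K V = 2 * k) (S U : Submodule K V)
    (hS : finrank K S = k + i) (hU : finrank K U = k) : 0 ≤ nu i S U := by
  have h1 := le_finrank_inf k i hV S U hS hU
  rw [nu_eq i S U (finrank K ↥(U ⊓ S) - i) (by omega)]
  have : (1 : ℚ) ≤ (Fintype.card K : ℚ) ^ (finrank K ↥(U ⊓ S) - i) :=
    one_le_pow₀ (by have := two_le_q K; linarith)
  linarith

open scoped Classical in
/-- If all members through `v` have weight zero there are at most `q ^ k` of them. -/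
theorem deg0 (k i : ℕ) (hk : i + 2 ≤ k) (hV : finrank K V = 2 * k) (C : Finset (Submodule K V))
    (hC : ∀ U ∈ C, finrank K U = k)
    (hd : ∀ U ∈ C, ∀ W ∈ C, U ≠ W → finrank K ↥(U ⊓ W) ≤ 1)
    (S : Submodule K V) (hS : finrank K S = k + i) (v : V) (hv : v ∉ S)
    (h0 : ∑ U ∈ C.filter (fun U => v ∈ U), nu i S U = 0) :
    0 ≤ (Fintype.card K : ℚ) ^ k - ((C.filter (fun U => v ∈ U)).card : ℚ) := by
  have hq := two_le_q K
  have h1 := count C hd S ⊤ v hv le_top
  have h2 : ∀ U ∈ C.filter (fun U => v ∈ U), (((F (U ⊓ ⊤)).card : ℚ) -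
      (Fintype.card K : ℚ) * ((F (U ⊓ S)).card : ℚ)) =
      ((Fintype.card K : ℚ) ^ k - (Fintype.card K : ℚ) ^ (i + 1)) -
        (Fintype.card K : ℚ) ^ (i + 1) * nu i S U := by
    intro U hU
    rw [mem_filter] at hU
    rw [card_eq_nu i S U, inf_top_eq, card_F U, hC U hU.1, pow_succ]
    push_cast
    ring
  rw [sum_congr rfl h2, sum_sub_distrib, ← mul_sum, h0, sum_const, nsmul_eq_mul, mul_zero,
    sub_zero, card_F ⊤, card_F S, hS, finrank_top, hV] at h1
  push_cast at h1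
  have h3 : (Fintype.card K : ℚ) ^ (2 * k) = (Fintype.card K : ℚ) ^ k * (Fintype.card K : ℚ) ^ k := by
    rw [two_mul, pow_add]
  have h3' : (Fintype.card K : ℚ) * (Fintype.card K : ℚ) ^ (k + i) =
      (Fintype.card K : ℚ) ^ k * (Fintype.card K : ℚ) ^ (i + 1) := by
    rw [pow_add, pow_succ]; ring
  rw [h3, h3'] at h1
  have h4 : (0 : ℚ) < (Fintype.card K : ℚ) ^ k - (Fintype.card K : ℚ) ^ (i + 1) := by
    have h5 : (Fintype.card K : ℚ) ^ (i + 1) < (Fintype.card K : ℚ) ^ k :=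
      pow_lt_pow_right₀ (by linarith) (by omega)
    linarith
  have h6 : ((C.filter (fun U => v ∈ U)).card : ℚ) *
      ((Fintype.card K : ℚ) ^ k - (Fintype.card K : ℚ) ^ (i + 1)) ≤
      (Fintype.card K : ℚ) ^ k * ((Fintype.card K : ℚ) ^ k - (Fintype.card K : ℚ) ^ (i + 1)) := by
    linarith
  have h7 := le_of_mul_le_mul_right h6 h4
  linarith

theorem le_card_inf (k : ℕ) (hV : finrank K V = 2 * k) (U X : Submodule K V)
    (hU : finrank K U = k) (j : ℕ) (hX : finrank K X = 2 * k - j) (hj : j ≤ k) :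
    (Fintype.card K : ℚ) ^ (k - j) ≤ ((F (U ⊓ X)).card : ℚ) := by
  have h1 := Submodule.finrank_sup_add_finrank_inf_eq U X
  have h2 : finrank K ↥(U ⊔ X) ≤ 2 * k := hV ▸ Submodule.finrank_le _
  have h3 : k - j ≤ finrank K ↥(U ⊓ X) := by omega
  rw [card_F]
  push_cast
  exact pow_le_pow_right₀ (by exact_mod_cast Fintype.card_pos (α := K)) h3

open scoped Classical in
/-- The inequality at a vector of a member `W` which meets `S` in dimension `i + j`. -/
theorem degLI (k i : ℕ) (hV : finrank K V = 2 * k) (C : Finset (Submodule K V))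
    (hC : ∀ U ∈ C, finrank K U = k)
    (hd : ∀ U ∈ C, ∀ W ∈ C, U ≠ W → finrank K ↥(U ⊓ W) ≤ 1)
    (S : Submodule K V) (hS : finrank K S = k + i) (v : V) (hv : v ∉ S)
    (W : Submodule K V) (hW : W ∈ C) (hvW : v ∈ W) (j m : ℕ) (hj : finrank K ↥(W ⊓ S) = i + j)
    (hm : i + j + 1 + m = k) :
    ((Fintype.card K : ℚ) ^ j - 1) * (Fintype.card K : ℚ) ^ m -
      ∑ U ∈ C.filter (fun U => v ∈ U), nu i S U ≤
      ((Fintype.card K : ℚ) ^ k - ((C.filter (fun U => v ∈ U)).card : ℚ)) *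
      ((Fintype.card K : ℚ) ^ m - 1) := by
  have hq := two_le_q K
  have hX : finrank K ↥(W ⊔ S) = 2 * k - j := by
    have h1 := Submodule.finrank_sup_add_finrank_inf_eq W S
    rw [hj, hC W hW, hS] at h1
    omega
  have h1 := count C hd S (W ⊔ S) v hv (sup_le le_sup_right (by
    rw [Submodule.span_singleton_le_iff_mem]; exact Submodule.mem_sup_left hvW))
  have h2 : ∑ U ∈ C.filter (fun U => v ∈ U), (((F (U ⊓ (W ⊔ S))).card : ℚ) -
      (Fintype.card K : ℚ) * ((F (U ⊓ S)).card : ℚ)) =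
      ∑ U ∈ C.filter (fun U => v ∈ U), (((F (U ⊓ (W ⊔ S))).card : ℚ) -
        (Fintype.card K : ℚ) ^ (k - j)) +
      ((C.filter (fun U => v ∈ U)).card : ℚ) * ((Fintype.card K : ℚ) ^ (k - j) -
        (Fintype.card K : ℚ) ^ (i + 1)) -
      (Fintype.card K : ℚ) ^ (i + 1) * ∑ U ∈ C.filter (fun U => v ∈ U), nu i S U := by
    rw [mul_sum, ← nsmul_eq_mul, ← sum_const, ← sum_add_distrib, ← sum_sub_distrib]
    refine sum_congr rfl (fun U _ => ?_)
    rw [card_eq_nu i S U, pow_succ]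
    ring
  have h3 : (Fintype.card K : ℚ) ^ k - (Fintype.card K : ℚ) ^ (k - j) ≤
      ∑ U ∈ C.filter (fun U => v ∈ U), (((F (U ⊓ (W ⊔ S))).card : ℚ) -
        (Fintype.card K : ℚ) ^ (k - j)) := by
    have h4 : ∀ U ∈ C.filter (fun U => v ∈ U), 0 ≤ (((F (U ⊓ (W ⊔ S))).card : ℚ) -
        (Fintype.card K : ℚ) ^ (k - j)) := by
      intro U hU
      rw [mem_filter] at hU
      have := le_card_inf k hV U (W ⊔ S) (hC U hU.1) j hX (by omega)
      linarith
    have h5 := single_le_sum h4 (mem_filter.mpr ⟨hW, hvW⟩)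
    have h6 : ((F (W ⊓ (W ⊔ S))).card : ℚ) = (Fintype.card K : ℚ) ^ k := by
      rw [inf_sup_self, card_F, hC W hW]; push_cast; rfl
    rw [h6] at h5
    exact h5
  rw [h2, card_F (W ⊔ S), card_F S, hS, hX] at h1
  push_cast at h1
  have e1 : (Fintype.card K : ℚ) ^ (k - j) = (Fintype.card K : ℚ) ^ (i + 1) *
      (Fintype.card K : ℚ) ^ m := by
    rw [← pow_add]
    congr 1; omega
  have e2 : (Fintype.card K : ℚ) ^ k = (Fintype.card K : ℚ) ^ (i + 1) *
      ((Fintype.card K : ℚ) ^ j * (Fintype.card K : ℚ) ^ m) := by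
    rw [← pow_add, ← pow_add]
    congr 1; omega
  have e3 : (Fintype.card K : ℚ) ^ (2 * k - j) =
      (Fintype.card K : ℚ) ^ k * (Fintype.card K : ℚ) ^ (k - j) := by
    rw [← pow_add]
    congr 1; omega
  have e4 : (Fintype.card K : ℚ) * (Fintype.card K : ℚ) ^ (k + i) =
      (Fintype.card K : ℚ) ^ k * (Fintype.card K : ℚ) ^ (i + 1) := by
    rw [pow_add, pow_succ]; ring
  rw [e3, e4] at h1
  have hq0 : (0 : ℚ) < (Fintype.card K : ℚ) ^ (i + 1) := pow_pos (by linarith) _
  have key : (Fintype.card K : ℚ) ^ (i + 1) * (((Fintype.card K : ℚ) ^ j - 1) *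
      (Fintype.card K : ℚ) ^ m -
      ∑ U ∈ C.filter (fun U => v ∈ U), nu i S U) ≤ (Fintype.card K : ℚ) ^ (i + 1) *
      (((Fintype.card K : ℚ) ^ k - ((C.filter (fun U => v ∈ U)).card : ℚ)) *
      ((Fintype.card K : ℚ) ^ m - 1)) := by
    have h7 : (Fintype.card K : ℚ) ^ k - (Fintype.card K : ℚ) ^ (k - j) +
        ((C.filter (fun U => v ∈ U)).card : ℚ) * ((Fintype.card K : ℚ) ^ (k - j) -
          (Fintype.card K : ℚ) ^ (i + 1)) -
        (Fintype.card K : ℚ) ^ (i + 1) * ∑ U ∈ C.filter (fun U => v ∈ U), nu i S U ≤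
        (Fintype.card K : ℚ) ^ k * (Fintype.card K : ℚ) ^ (k - j) -
        (Fintype.card K : ℚ) ^ k * (Fintype.card K : ℚ) ^ (i + 1) := by linarith
    have e5 : (Fintype.card K : ℚ) ^ (i + 1) * (((Fintype.card K : ℚ) ^ j - 1) *
        (Fintype.card K : ℚ) ^ m -
        ∑ U ∈ C.filter (fun U => v ∈ U), nu i S U) =
        (Fintype.card K : ℚ) ^ k - (Fintype.card K : ℚ) ^ (k - j) -
        (Fintype.card K : ℚ) ^ (i + 1) * ∑ U ∈ C.filter (fun U => v ∈ U), nu i S U := by
      rw [e2, e1]; ring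
    have e6 : (Fintype.card K : ℚ) ^ (i + 1) *
        (((Fintype.card K : ℚ) ^ k - ((C.filter (fun U => v ∈ U)).card : ℚ)) *
        ((Fintype.card K : ℚ) ^ m - 1)) =
        ((Fintype.card K : ℚ) ^ k - ((C.filter (fun U => v ∈ U)).card : ℚ)) *
        ((Fintype.card K : ℚ) ^ (k - j) - (Fintype.card K : ℚ) ^ (i + 1)) := by
      rw [e1]; ring
    rw [e5, e6]
    linarith
  exact le_of_mul_le_mul_left key hq0

open scoped Classical in
/-- The sum of the weights over the vectors of a member. -/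
theorem sum_mu (k i : ℕ) (hV : finrank K V = 2 * k) (C : Finset (Submodule K V))
    (hC : ∀ U ∈ C, finrank K U = k)
    (hd : ∀ U ∈ C, ∀ W ∈ C, U ≠ W → finrank K ↥(U ⊓ W) ≤ 1)
    (S : Submodule K V) (hS : finrank K S = k + i) (W : Submodule K V) (hW : W ∈ C) :
    ((univ.filter (fun v : V => v ∉ S)).filter (fun v => v ∈ W)).card =
      ((Fintype.card K : ℚ) ^ k - (Fintype.card K : ℚ) ^ i * (nu i S W + 1)) ∧
    ∑ v ∈ (univ.filter (fun v : V => v ∉ S)).filter (fun v => v ∈ W),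
      ∑ U ∈ C.filter (fun U => v ∈ U), nu i S U ≤
      ((Fintype.card K : ℚ) ^ k - (Fintype.card K : ℚ) ^ i * (nu i S W + 1)) * nu i S W +
      ((Fintype.card K : ℚ) - 1) * (∑ U ∈ C, nu i S U - nu i S W) := by
  have c1 : (((univ.filter (fun v : V => v ∉ S)).filter (fun v => v ∈ W)).card : ℚ) =
      ((Fintype.card K : ℚ) ^ k - (Fintype.card K : ℚ) ^ i * (nu i S W + 1)) := by
    have h1 : (univ.filter (fun v : V => v ∉ S)).filter (fun v => v ∈ W) = F W \ F (W ⊓ S) := by
      ext x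
      simp only [mem_filter, mem_univ, true_and, mem_sdiff, mem_F, Submodule.mem_inf]
      tauto
    have h2 : F (W ⊓ S) ⊆ F W := F_mono inf_le_left
    rw [h1, card_sdiff_of_subset h2, Nat.cast_sub (card_le_card h2), card_F W, hC W hW,
      card_eq_nu i S W]
    push_cast
    ring
  refine ⟨c1, ?_⟩
  have h1 : ∑ v ∈ (univ.filter (fun v : V => v ∉ S)).filter (fun v => v ∈ W),
      ∑ U ∈ C.filter (fun U => v ∈ U), nu i S U =
      ∑ U ∈ C, (((univ.filter (fun v : V => v ∉ S)).filter (fun v => v ∈ W)).filter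
        (fun v => v ∈ U)).card * nu i S U := by
    have h2 : ∀ v ∈ (univ.filter (fun v : V => v ∉ S)).filter (fun v => v ∈ W),
        ∑ U ∈ C.filter (fun U => v ∈ U), nu i S U = ∑ U ∈ C, if v ∈ U then nu i S U else 0 :=
      fun v _ => sum_filter _ _
    rw [sum_congr rfl h2, sum_comm]
    refine sum_congr rfl (fun U _ => ?_)
    rw [← sum_filter, sum_const, nsmul_eq_mul]
  rw [h1, ← add_sum_erase C _ hW]
  have h3 : (((univ.filter (fun v : V => v ∉ S)).filter (fun v => v ∈ W)).filter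
        (fun v => v ∈ W)) = ((univ.filter (fun v : V => v ∉ S)).filter (fun v => v ∈ W)) := by
    rw [filter_filter]
    refine filter_congr (fun v _ => and_self_iff)
  rw [h3, c1]
  have h4 : ∑ U ∈ C, nu i S U - nu i S W = ∑ U ∈ C.erase W, nu i S U := by
    rw [← add_sum_erase C _ hW]; ring
  rw [h4, mul_sum]
  refine add_le_add le_rfl (sum_le_sum (fun U hU => ?_))
  rw [mem_erase] at hU
  refine mul_le_mul_of_nonneg_right ?_ (nu_nonneg k i hV S U hS (hC U hU.2))
  have h5 : (((univ.filter (fun v : V => v ∉ S)).filter (fun v => v ∈ W)).filter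
        (fun v => v ∈ U)) ⊆ (F (U ⊓ W)).erase 0 := by
    intro x hx
    simp only [mem_filter, mem_univ, true_and] at hx
    rw [mem_erase, mem_F, Submodule.mem_inf]
    exact ⟨fun h => hx.1.1 (h ▸ S.zero_mem), hx.2, hx.1.2⟩
  have h6 := card_le_card h5
  rw [card_erase_of_mem ((mem_F _ _).mpr (Submodule.zero_mem _)), card_F] at h6
  have h7 : Fintype.card K ^ finrank K ↥(U ⊓ W) ≤ Fintype.card K := by
    calc Fintype.card K ^ finrank K ↥(U ⊓ W) ≤ Fintype.card K ^ 1 :=
          Nat.pow_le_pow_right Fintype.card_pos (hd U hU.2 W hW hU.1)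
      _ = Fintype.card K := pow_one _
  have h8 : (((univ.filter (fun v : V => v ∉ S)).filter (fun v => v ∈ W)).filter
        (fun v => v ∈ U)).card + 1 ≤ Fintype.card K := by
    have := Fintype.card_pos (α := K)
    omega
  have h9 : ((((univ.filter (fun v : V => v ∉ S)).filter (fun v => v ∈ W)).filter
        (fun v => v ∈ U)).card : ℚ) + 1 ≤ (Fintype.card K : ℚ) := by exact_mod_cast h8
  linarith

end Pool.Agent.MP8bT
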