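import Pool.Agent.Lib.MP_8b575b_co.Lt.Fin

/-!
# Codes with a light subspace: passing to the dual space
-/

set_option autoImplicit false
set_option linter.unusedSectionVars false

namespace Pool.Agent.MP8bT

open Finset Module

variable {K V : Type} [Field K] [Fintype K] [AddCommGroup V] [Module K V]

theorem finrank_ann (n : ℕ) (hV : finrank K V = n) (hn : 0 < n) (U : Submodule K V) :
    finrank K U + finrank K U.dualAnnihilator = n := by
  have : FiniteDimensional K V := FiniteDimensional.of_finrank_pos (by omega)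
  rw [← hV]
  exact Subspace.finrank_add_finrank_dualAnnihilator_eq U

theorem finrank_ann_inf (n : ℕ) (hV : finrank K V = n) (hn : 0 < n) (U W : Submodule K V) :
    finrank K U + finrank K W + finrank K ↥(U.dualAnnihilator ⊓ W.dualAnnihilator) =
      n + finrank K ↥(U ⊓ W) := by
  have : FiniteDimensional K V := FiniteDimensional.of_finrank_pos (by omega)
  have h1 := finrank_ann n hV hn (U ⊔ W)
  rw [Submodule.dualAnnihilator_sup_eq] at h1
  have h2 := Submodule.finrank_sup_add_finrank_inf_eq U W
  omega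

open scoped Classical in
/-- The code without an exceptional member. -/
theorem light_primal (k s : ℕ) (hs2 : 2 ≤ s) (hsk : s ≤ k) (hV : finrank K V = 2 * k)
    (C : Finset (Submodule K V)) (hC : ∀ U ∈ C, finrank K U = k)
    (hd : ∀ U ∈ C, ∀ W ∈ C, U ≠ W → finrank K ↥(U ⊓ W) ≤ 1)
    (S : Submodule K V) (hS : finrank K S = s)
    (hj : ∀ U ∈ C, finrank K ↥(U ⊓ S) + 2 ≤ s)
    (h : ∑ U ∈ C, ((Fintype.card K : ℚ) ^ finrank K ↥(U ⊓ S) - 1) ≤
      (Fintype.card K : ℚ) ^ (k - s) * (((Fintype.card K : ℚ) ^ (s - 2) - 1) *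
      ((Fintype.card K : ℚ) ^ 2 * (Fintype.card K : ℚ) ^ (s - 2) - (Fintype.card K : ℚ) ^ (s - 2) -
        (Fintype.card K : ℚ)))) :
    C.card ≤ Fintype.card K ^ (2 * k) := by
  have : FiniteDimensional K V := FiniteDimensional.of_finrank_pos (by omega)
  have : Finite (Dual K V) := Module.finite_of_finite K
  have : Fintype (Dual K V) := Fintype.ofFinite _
  have hn : 0 < 2 * k := by omega
  have hVD : finrank K (Dual K V) = 2 * k := by rw [Subspace.dual_finrank_eq, hV]
  have hinj : ∀ U ∈ C, ∀ W ∈ C, U.dualAnnihilator = W.dualAnnihilator → U = W :=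
    fun U _ W _ hUW => Subspace.dualAnnihilator_inj.mp hUW
  have hcard : (C.image (fun U => U.dualAnnihilator)).card = C.card :=
    card_image_of_injOn (fun U hU W hW hUW => hinj U hU W hW hUW)
  rw [← hcard]
  refine light_core k (k - s) s (by omega) hs2 hVD _ ?_ ?_ S.dualAnnihilator ?_ ?_ ?_
  · intro U hU
    obtain ⟨U', hU', rfl⟩ := mem_image.mp hU
    have := finrank_ann (2 * k) hV hn U'
    rw [hC U' hU'] at this
    omega
  · intro U hU W hW hne
    obtain ⟨U', hU', rfl⟩ := mem_image.mp hU
    obtain ⟨W', hW', rfl⟩ := mem_image.mp hW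
    have h1 := finrank_ann_inf (2 * k) hV hn U' W'
    have h2 := hd U' hU' W' hW' (fun h => hne (by rw [h]))
    rw [hC U' hU', hC W' hW'] at h1
    omega
  · have := finrank_ann (2 * k) hV hn S
    omega
  · intro U hU
    obtain ⟨U', hU', rfl⟩ := mem_image.mp hU
    have h1 := finrank_ann_inf (2 * k) hV hn U' S
    have h2 := hj U' hU'
    rw [hC U' hU', hS] at h1
    omega
  · rw [sum_image (fun U hU W hW hUW => hinj U hU W hW hUW)]
    refine le_trans (le_of_eq (sum_congr rfl (fun U hU => ?_))) h
    refine nu_eq (k - s) S.dualAnnihilator U.dualAnnihilator (finrank K ↥(U ⊓ S)) ?_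
    have h1 := finrank_ann_inf (2 * k) hV hn U S
    rw [hC U hU, hS] at h1
    omega

end Pool.Agent.MP8bT
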