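import Pool.Agent.Lib.MP_8b575b_co.Lt.Core
import Pool.Agent.Lib.MP_8b575b_co.Lt.Deg

/-!
# Codes with a light subspace: the dual form, `S` of dimension `k + i`
-/

set_option autoImplicit false
set_option linter.unusedSectionVars false

namespace Pool.Agent.MP8bT

open Finset Module

theorem aux_nonneg (q B : ℚ) (hq : 2 ≤ q) (hB : 1 ≤ B) : 0 ≤ q ^ 2 * B - B - q := by
  have h1 : 0 ≤ (q ^ 2 - 1) * (B - 1) := mul_nonneg (by nlinarith) (by linarith)
  have h2 : 0 ≤ (q - 2) * (q + 1) := mul_nonneg (by linarith) (by linarith)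
  nlinarith

/-- The final inequality. -/
theorem fin_ineq (q a c B t : ℚ) (hq : 2 ≤ q) (ha : q ≤ a) (hc : q ≤ c) (hB : 1 ≤ B)
    (h : a * c = q * B) :
    (t * (q * (a * c) - a) + t * (c - 1)) *
      (t * (q * (a * c) - a) * (a - 1) + (q - 1) * (t * ((B - 1) * (q ^ 2 * B - B - q)))) ≤
      ((a - 1) * c) * (t * (q * (a * c) - a)) ^ 2 := by
  have h1 : a + c ≤ B + q := by
    have : 0 ≤ (a - q) * (c - q) := mul_nonneg (by linarith) (by linarith)
    have h2 : q * (a + c) ≤ q * (B + q) := by nlinarith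
    exact le_of_mul_le_mul_left h2 (by linarith)
  have h2 : (q - 1) * (B - 1) ≤ (a - 1) * (c - 1) := by nlinarith
  have h3 : 0 ≤ q ^ 2 * B - B - q := aux_nonneg q B hq hB
  have h4 : q ^ 2 * B - B - q ≤ q * (a * c) - a - c := by rw [h]; nlinarith
  have h5 : (q - 1) * (B - 1) * (q ^ 2 * B - B - q) ≤
      (a - 1) * (c - 1) * (q * (a * c) - a - c) :=
    mul_le_mul h2 h4 h3 (mul_nonneg (by linarith) (by linarith))
  have h6 : (q * (a * c) - a) * (a - 1) + (q - 1) * ((B - 1) * (q ^ 2 * B - B - q)) ≤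
      (a - 1) * c * (q * (a * c) - a - c + 1) := by nlinarith
  have h7 : 0 ≤ (q * (a * c) - a) + (c - 1) := by
    have : 0 ≤ a * (q * c - 1) := mul_nonneg (by linarith) (by nlinarith)
    nlinarith
  have h8 := mul_le_mul_of_nonneg_left h6 h7
  have h9 : ((q * (a * c) - a) + (c - 1)) * ((a - 1) * c * (q * (a * c) - a - c + 1)) ≤
      ((a - 1) * c) * (q * (a * c) - a) ^ 2 := by
    have h10 : 0 ≤ (a - 1) * c * (c - 1) ^ 2 :=
      mul_nonneg (mul_nonneg (by linarith) (by linarith)) (sq_nonneg _)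
    nlinarith
  have h11 := mul_le_mul_of_nonneg_left (h8.trans h9) (sq_nonneg t)
  nlinarith

variable {K V : Type} [Field K] [Fintype K] [AddCommGroup V] [Module K V] [Fintype V]

open scoped Classical in
theorem light_core (k i s : ℕ) (hs : s + i = k) (hs2 : 2 ≤ s) (hV : finrank K V = 2 * k)
    (C : Finset (Submodule K V)) (hC : ∀ U ∈ C, finrank K U = k)
    (hd : ∀ U ∈ C, ∀ W ∈ C, U ≠ W → finrank K ↥(U ⊓ W) ≤ 1)
    (S : Submodule K V) (hS : finrank K S = k + i)
    (hj : ∀ U ∈ C, finrank K ↥(U ⊓ S) + 2 ≤ k)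
    (h : ∑ U ∈ C, nu i S U ≤ (Fintype.card K : ℚ) ^ i * (((Fintype.card K : ℚ) ^ (s - 2) - 1) *
      ((Fintype.card K : ℚ) ^ 2 * (Fintype.card K : ℚ) ^ (s - 2) - (Fintype.card K : ℚ) ^ (s - 2) -
        (Fintype.card K : ℚ)))) :
    C.card ≤ Fintype.card K ^ (2 * k) := by
  have hq := two_le_q K
  have hq0 : (0 : ℚ) < (Fintype.card K : ℚ) := by linarith
  have ht0 : (0 : ℚ) < (Fintype.card K : ℚ) ^ i := pow_pos hq0 _
  -- the sum over the vectors outside `S`
  have key := core2 (univ.filter (fun v : V => v ∉ S)) C (fun v U => v ∈ U) (nu i S)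
    (fun v => (Fintype.card K : ℚ) ^ k - ((C.filter (fun U => v ∈ U)).card : ℚ))
    ((Fintype.card K : ℚ) ^ i)
    (fun U hU => nu_nonneg k i hV S U hS (hC U hU))
    (fun v hv h0 => deg0 k i (by omega) hV C hC hd S hS v (mem_filter.mp hv).2 h0)
    (by
      intro W hW hpos
      obtain ⟨hn, hsum⟩ := sum_mu k i hV C hC hd S hS W hW
      obtain ⟨j, hjj⟩ : ∃ j, finrank K ↥(W ⊓ S) = i + j :=
        ⟨finrank K ↥(W ⊓ S) - i, by
          have := le_finrank_inf k i hV S W hS (hC W hW)
          omega⟩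
      have hnu : nu i S W = (Fintype.card K : ℚ) ^ j - 1 := nu_eq i S W j hjj
      have hj1 : 1 ≤ j := by
        rcases Nat.eq_zero_or_pos j with h0 | h0
        · rw [hnu, h0, pow_zero, sub_self] at hpos
          exact absurd hpos (lt_irrefl _)
        · exact h0
      have hjk := hj W hW
      rw [hjj] at hjk
      obtain ⟨m, hm⟩ : ∃ m, i + j + 1 + m = k := ⟨k - (i + j + 1), by omega⟩
      have hm1 : 1 ≤ m := by omega
      rw [hnu] at hn hsum hpos
      -- parameters
      have hqk : (Fintype.card K : ℚ) ^ k = (Fintype.card K : ℚ) ^ i * ((Fintype.card K : ℚ) *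
          ((Fintype.card K : ℚ) ^ j * (Fintype.card K : ℚ) ^ m)) := by
        rw [← pow_add, ← pow_succ', ← pow_add]; congr 1; omega
      have hac : (Fintype.card K : ℚ) ^ j * (Fintype.card K : ℚ) ^ m =
          (Fintype.card K : ℚ) * (Fintype.card K : ℚ) ^ (s - 2) := by
        rw [← pow_add, ← pow_succ']; congr 1; omega
      have hLI : ∀ v ∈ (univ.filter (fun v : V => v ∉ S)).filter (fun v => v ∈ W),
          ((Fintype.card K : ℚ) ^ j - 1) * (Fintype.card K : ℚ) ^ m -
          ∑ U ∈ C.filter (fun U => v ∈ U), nu i S U ≤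
          ((Fintype.card K : ℚ) ^ k - ((C.filter (fun U => v ∈ U)).card : ℚ)) *
          ((Fintype.card K : ℚ) ^ m - 1) := by
        intro v hv
        rw [mem_filter, mem_filter] at hv
        exact degLI k i hV C hC hd S hS v hv.1.2 W hW hv.2 j m hjj hm
      have hμ : ∀ v ∈ (univ.filter (fun v : V => v ∉ S)).filter (fun v => v ∈ W),
          0 < ∑ U ∈ C.filter (fun U => v ∈ U), nu i S U := by
        intro v hv
        rw [mem_filter] at hv
        have h1 := single_le_sum (fun U (hU : U ∈ C.filter (fun U => v ∈ U)) =>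
          nu_nonneg k i hV S U hS (hC U (mem_filter.mp hU).1))
          (mem_filter.mpr ⟨hW, hv.2⟩)
        rw [hnu] at h1
        linarith
      have haq : (Fintype.card K : ℚ) ≤ (Fintype.card K : ℚ) ^ j := by
        calc (Fintype.card K : ℚ) = (Fintype.card K : ℚ) ^ 1 := (pow_one _).symm
          _ ≤ _ := pow_le_pow_right₀ (by linarith) hj1
      have hcq : (Fintype.card K : ℚ) ≤ (Fintype.card K : ℚ) ^ m := by
        calc (Fintype.card K : ℚ) = (Fintype.card K : ℚ) ^ 1 := (pow_one _).symm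
          _ ≤ _ := pow_le_pow_right₀ (by linarith) hm1
      have hB1 : (1 : ℚ) ≤ (Fintype.card K : ℚ) ^ (s - 2) := one_le_pow₀ (by linarith)
      have hfin := fin_ineq (Fintype.card K : ℚ) ((Fintype.card K : ℚ) ^ j)
        ((Fintype.card K : ℚ) ^ m) ((Fintype.card K : ℚ) ^ (s - 2)) ((Fintype.card K : ℚ) ^ i)
        hq haq hcq hB1 hac
      have hn0 : (Fintype.card K : ℚ) ^ k - (Fintype.card K : ℚ) ^ i *
          ((Fintype.card K : ℚ) ^ j - 1 + 1) = (Fintype.card K : ℚ) ^ i * ((Fintype.card K : ℚ) *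
          ((Fintype.card K : ℚ) ^ j * (Fintype.card K : ℚ) ^ m) - (Fintype.card K : ℚ) ^ j) := by
        rw [hqk]; ring
      rw [hn0] at hn hsum
      generalize (Fintype.card K : ℚ) ^ k = Qk at *
      generalize (Fintype.card K : ℚ) ^ j = a at *
      generalize (Fintype.card K : ℚ) ^ m = c at *
      generalize (Fintype.card K : ℚ) ^ (s - 2) = B at *
      generalize (Fintype.card K : ℚ) ^ i = t at *
      generalize (Fintype.card K : ℚ) = q at *
      have hnpos : 0 < t * (q * (a * c) - a) := by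
        apply mul_pos ht0
        have : 0 < a * (q * c - 1) := mul_pos (by linarith) (by nlinarith)
        nlinarith
      refine core1 _ _ _ ((a - 1) * c) c (t * (q * (a * c) - a))
        (t * (q * (a * c) - a) * (a - 1) + (q - 1) * (t * ((B - 1) * (q ^ 2 * B - B - q)))) t
        hμ ?_ ?_ hLI hn ?_ ?_ hfin
      · exact mul_nonneg (by linarith) (by linarith)
      · linarith
      · have h1 : 0 < t * (q * (a * c) - a) * (a - 1) := mul_pos hnpos (by linarith)
        have h2 : 0 ≤ (q - 1) * (t * ((B - 1) * (q ^ 2 * B - B - q))) := by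
          exact mul_nonneg (by linarith) (mul_nonneg ht0.le (mul_nonneg (by linarith)
            (aux_nonneg q B hq hB1)))
        linarith
      · refine hsum.trans (add_le_add le_rfl ?_)
        refine mul_le_mul_of_nonneg_left ?_ (by linarith)
        linarith)
  -- the global identity
  have hcard : ((univ.filter (fun v : V => v ∉ S)).card : ℚ) =
      (Fintype.card K : ℚ) ^ k * (Fintype.card K : ℚ) ^ k -
        (Fintype.card K : ℚ) ^ k * (Fintype.card K : ℚ) ^ i := by
    have h1 : univ.filter (fun v : V => v ∉ S) = F (⊤ : Submodule K V) \ F S := by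
      ext x
      simp only [mem_filter, mem_univ, true_and, mem_sdiff, mem_F, Submodule.mem_top]
    rw [h1, card_sdiff_of_subset (F_mono le_top), Nat.cast_sub (card_le_card (F_mono le_top)),
      card_F ⊤, card_F S, hS, finrank_top, hV, two_mul, pow_add, pow_add]
    push_cast
    ring
  have hdeg : ∑ v ∈ univ.filter (fun v : V => v ∉ S), ((C.filter (fun U => v ∈ U)).card : ℚ) =
      (C.card : ℚ) * ((Fintype.card K : ℚ) ^ k - (Fintype.card K : ℚ) ^ i) -
        (Fintype.card K : ℚ) ^ i * ∑ U ∈ C, nu i S U := by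
    have h1 : ∀ v ∈ univ.filter (fun v : V => v ∉ S), ((C.filter (fun U => v ∈ U)).card : ℚ) =
        ∑ U ∈ C, if v ∈ U then (1 : ℚ) else 0 := by
      intro v _
      rw [← sum_filter, sum_const, nsmul_eq_mul, mul_one]
    rw [sum_congr rfl h1, sum_comm, ← nsmul_eq_mul, ← sum_const, mul_sum, ← sum_sub_distrib]
    refine sum_congr rfl (fun U hU => ?_)
    rw [← sum_filter, sum_const, nsmul_eq_mul, mul_one, (sum_mu k i hV C hC hd S hS U hU).1]
    ring
  rw [sum_sub_distrib, hdeg, sum_const, nsmul_eq_mul, hcard, ← sum_mul] at key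
  have hQ1 : (0 : ℚ) < (Fintype.card K : ℚ) ^ k - (Fintype.card K : ℚ) ^ i := by
    have h1 : (Fintype.card K : ℚ) ^ i < (Fintype.card K : ℚ) ^ k :=
      pow_lt_pow_right₀ (by linarith) (by omega)
    linarith
  have hfin : (C.card : ℚ) * ((Fintype.card K : ℚ) ^ k - (Fintype.card K : ℚ) ^ i) ≤
      ((Fintype.card K : ℚ) ^ k * (Fintype.card K : ℚ) ^ k) *
        ((Fintype.card K : ℚ) ^ k - (Fintype.card K : ℚ) ^ i) := by
    linarith
  have hfin2 := le_of_mul_le_mul_right hfin hQ1
  rw [two_mul, pow_add]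
  exact_mod_cast hfin2

end Pool.Agent.MP8bT
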