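import Pool.Agent.Lib.MP_8b575b_co.Lt.Dua

/-!
# Codes with a light subspace: the theorem
-/

set_option autoImplicit false

namespace Pool.Agent.MP8bT

open Finset Module

theorem pow_sub_le_nat (q s : ℕ) (hq : 2 ≤ q) (hs : 2 ≤ s) : q + q ^ (s - 2) ≤ q ^ s := by
  obtain ⟨t, rfl⟩ := Nat.exists_eq_add_of_le' hs
  have h1 : 1 ≤ q ^ t := Nat.one_le_pow _ _ (by omega)
  have h2 : q ^ (t + 2) = q ^ t * (q * q) := by rw [pow_add, pow_two]
  have h3 : t + 2 - 2 = t := by omega
  rw [h2, h3]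
  calc q + q ^ t ≤ q ^ t * q + q ^ t := by
        have : 1 * q ≤ q ^ t * q := Nat.mul_le_mul_right _ h1
        omega
    _ = q ^ t * (q + 1) := by ring
    _ ≤ q ^ t * (q * q) := Nat.mul_le_mul_left _ (by nlinarith)

open scoped Classical in
theorem light_main (K V : Type) [Field K] [Fintype K] [AddCommGroup V] [Module K V] (k s : ℕ)
    (hs2 : 2 ≤ s) (hsk : s ≤ k) (hV : finrank K V = 2 * k)
    (C : Finset (Submodule K V)) (hC : ∀ U ∈ C, finrank K U = k)
    (hd : ∀ U ∈ C, ∀ W ∈ C, U ≠ W → finrank K ↥(U ⊓ W) ≤ 1)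
    (S U₀ : Submodule K V) (hS : finrank K S = s)
    (hex : 4 ≤ s ∨ ∀ U ∈ C, U ≠ U₀ → finrank K ↥(U ⊓ S) + 2 ≤ s)
    (h : ∑ U ∈ C.erase U₀, (Fintype.card K ^ finrank K ↥(U ⊓ S) - 1) ≤
      Fintype.card K ^ (k - s) * ((Fintype.card K ^ (s - 2) - 1) *
        (Fintype.card K ^ s - Fintype.card K ^ (s - 2) - Fintype.card K))) :
    C.card ≤ Fintype.card K ^ (2 * k) + 1 := by
  have hqN : 1 ≤ Fintype.card K := Fintype.card_pos
  have hqN2 : 2 ≤ Fintype.card K := Fintype.one_lt_card (α := K)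
  have hq := two_le_q K
  have h' : ∑ U ∈ C.erase U₀, ((Fintype.card K : ℚ) ^ finrank K ↥(U ⊓ S) - 1) ≤
      (Fintype.card K : ℚ) ^ (k - s) * (((Fintype.card K : ℚ) ^ (s - 2) - 1) *
      ((Fintype.card K : ℚ) ^ 2 * (Fintype.card K : ℚ) ^ (s - 2) - (Fintype.card K : ℚ) ^ (s - 2) -
        (Fintype.card K : ℚ))) := by
    have e1 : ∑ U ∈ C.erase U₀, ((Fintype.card K : ℚ) ^ finrank K ↥(U ⊓ S) - 1) =
        ((∑ U ∈ C.erase U₀, (Fintype.card K ^ finrank K ↥(U ⊓ S) - 1) : ℕ) : ℚ) := by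
      rw [Nat.cast_sum]
      refine sum_congr rfl (fun U _ => ?_)
      rw [Nat.cast_sub (Nat.one_le_pow _ _ hqN)]
      push_cast
      ring
    have e2 : (Fintype.card K : ℚ) ^ (k - s) * (((Fintype.card K : ℚ) ^ (s - 2) - 1) *
      ((Fintype.card K : ℚ) ^ 2 * (Fintype.card K : ℚ) ^ (s - 2) - (Fintype.card K : ℚ) ^ (s - 2) -
        (Fintype.card K : ℚ))) =
        ((Fintype.card K ^ (k - s) * ((Fintype.card K ^ (s - 2) - 1) *
        (Fintype.card K ^ s - Fintype.card K ^ (s - 2) - Fintype.card K)) : ℕ) : ℚ) := by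
      have h1 := pow_sub_le_nat (Fintype.card K) s hqN2 hs2
      rw [Nat.cast_mul, Nat.cast_mul, Nat.cast_sub (Nat.one_le_pow _ _ hqN),
        Nat.cast_sub (by omega), Nat.cast_sub (by omega), ← pow_add]
      have h2 : 2 + (s - 2) = s := by omega
      rw [h2]
      push_cast
      ring
    rw [e1, e2]
    exact_mod_cast h
  have hmono : ∀ a b : ℕ, a ≤ b →
      (Fintype.card K : ℚ) ^ a - 1 ≤ (Fintype.card K : ℚ) ^ b - 1 := by
    intro a b hab
    have := pow_le_pow_right₀ (by linarith : (1 : ℚ) ≤ (Fintype.card K : ℚ)) hab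
    linarith
  have hnn : ∀ a : ℕ, (0 : ℚ) ≤ (Fintype.card K : ℚ) ^ a - 1 := by
    intro a
    have : (1 : ℚ) ≤ (Fintype.card K : ℚ) ^ a := one_le_pow₀ (by linarith)
    linarith
  by_cases hcase : ∃ W ∈ C, s < finrank K ↥(W ⊓ S) + 2
  · obtain ⟨W, hW, hWk⟩ := hcase
    have hother : ∀ U ∈ C, U ≠ W → finrank K ↥(U ⊓ S) + 2 ≤ s := by
      intro U hU hne
      rcases hex with hs4 | hex
      · by_contra hcon
        have : FiniteDimensional K V := FiniteDimensional.of_finrank_pos (by omega)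
        have h1 := Submodule.finrank_sup_add_finrank_inf_eq (U ⊓ S) (W ⊓ S)
        have h2 : finrank K ↥((U ⊓ S) ⊔ (W ⊓ S)) ≤ s :=
          hS ▸ Submodule.finrank_mono (sup_le inf_le_right inf_le_right)
        have h3 : finrank K ↥((U ⊓ S) ⊓ (W ⊓ S)) ≤ finrank K ↥(U ⊓ W) :=
          Submodule.finrank_mono (inf_le_inf inf_le_left inf_le_left)
        have h4 := hd U hU W hW hne
        omega
      · have hWU : W = U₀ := by
          by_contra hne'
          have := hex W hW hne'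
          omega
        exact hex U hU (hWU ▸ hne)
    have hsum : ∑ U ∈ C.erase W, ((Fintype.card K : ℚ) ^ finrank K ↥(U ⊓ S) - 1) ≤
        (Fintype.card K : ℚ) ^ (k - s) * (((Fintype.card K : ℚ) ^ (s - 2) - 1) *
      ((Fintype.card K : ℚ) ^ 2 * (Fintype.card K : ℚ) ^ (s - 2) - (Fintype.card K : ℚ) ^ (s - 2) -
        (Fintype.card K : ℚ))) := by
      refine le_trans ?_ h'
      by_cases hWU : W = U₀
      · rw [hWU]
      · have e1 := add_sum_erase C
          (fun U => (Fintype.card K : ℚ) ^ finrank K ↥(U ⊓ S) - 1) hW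
        by_cases hU0 : U₀ ∈ C
        · have e2 := add_sum_erase C
            (fun U => (Fintype.card K : ℚ) ^ finrank K ↥(U ⊓ S) - 1) hU0
          have h5 := hother U₀ hU0 (fun h => hWU h.symm)
          have h6 := hmono (finrank K ↥(U₀ ⊓ S)) (finrank K ↥(W ⊓ S)) (by omega)
          linarith
        · rw [erase_eq_of_notMem hU0]
          have := hnn (finrank K ↥(W ⊓ S))
          linarith
    have key := light_primal k s hs2 hsk hV (C.erase W) (fun U hU => hC U (mem_of_mem_erase hU))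
      (fun U hU U' hU' => hd U (mem_of_mem_erase hU) U' (mem_of_mem_erase hU')) S hS
      (fun U hU => hother U (mem_of_mem_erase hU) (ne_of_mem_erase hU)) hsum
    rw [card_erase_of_mem hW] at key
    omega
  · push Not at hcase
    have key := light_primal k s hs2 hsk hV (C.erase U₀) (fun U hU => hC U (mem_of_mem_erase hU))
      (fun U hU U' hU' => hd U (mem_of_mem_erase hU) U' (mem_of_mem_erase hU')) S hS
      (fun U hU => hcase U (mem_of_mem_erase hU)) h'
    have h1 : C.card - 1 ≤ (C.erase U₀).card := pred_card_le_card_erase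
    omega

end Pool.Agent.MP8bT
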